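import Mathlib

/-!
# A balanced configuration of the hyperbolic plane that is not group-balanced

The configuration is made of the points `(t, √2 (2a - b), √6 b)` of the hyperboloid
`x₀² - x₁² - x₂² = 1`, `x₀ > 0`, with `t, a, b` integers such that either
`t ≡ 1 (mod 4)` and `b` is even, or `t ≡ 3 (mod 4)` and `a + b ≡ 1 (mod 3)`.
The points of the first kind are permuted by the half-turn about each point of the configuration,
the points of the second kind by the rotation through 120 degrees about each point of the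
configuration, so that both kinds are balanced.  At the point `(1, 0, 0)` no symmetry of the
configuration has a single fixed point.
-/

set_option autoImplicit false

namespace Pool.Agent.Results.MP_906af0_co.HyperbolicPlane

/-- The Lorentz form `x₀ y₀ - (x₁ y₁ + ... + xₙ yₙ)` on `ℝ^(n+1)`. -/
def lor {n : ℕ} (x y : Fin (n + 1) → ℝ) : ℝ := x 0 * y 0 - ∑ i : Fin n, x i.succ * y i.succ

/-- Real hyperbolic `n`-space (hyperboloid model): the vectors `x` of `ℝ^(n+1)` with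
`x₀² - x₁² - ... - xₙ² = 1` and `x₀ > 0`. -/
def Hyp (n : ℕ) : Type := {x : Fin (n + 1) → ℝ // lor x x = 1 ∧ 0 < x 0}

/-- The hyperbolic distance of two points: `arcosh (lor P Q)`. -/
noncomputable def hdist {n : ℕ} (P Q : Hyp n) : ℝ := Real.arcosh (lor P.1 Q.1)

/-- The unit tangent vector at `P` of the geodesic from `P` to `Q ≠ P`: with `d` the distance from
`P` to `Q`, it is the vector `u` with `Q = (cosh d) P + (sinh d) u`. -/
noncomputable def dir {n : ℕ} (P Q : Hyp n) : Fin (n + 1) → ℝ :=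
  (Real.sinh (hdist P Q))⁻¹ • (Q.1 - Real.cosh (hdist P Q) • P.1)

/-- A configuration is discrete if every bounded set contains only finitely many points of it. -/
def Discrete {n : ℕ} (C : Set (Hyp n)) : Prop :=
  ∀ (P : Hyp n) (R : ℝ), {Q | Q ∈ C ∧ hdist P Q ≤ R}.Finite

/-- A configuration is balanced if for each of its points `P` and each `d > 0` the unit tangent
vectors at `P` towards the points of the configuration at distance `d` from `P` have sum zero. -/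
def Balanced {n : ℕ} (C : Set (Hyp n)) : Prop :=
  ∀ P ∈ C, ∀ d : ℝ, 0 < d → ∑ᶠ Q ∈ {Q | Q ∈ C ∧ hdist P Q = d}, dir P Q = 0

/-- A symmetry of `C` is an isometry `g` of hyperbolic space with `g(C) = C`. -/
def IsSymmetry {n : ℕ} (C : Set (Hyp n)) (g : Hyp n ≃ Hyp n) : Prop :=
  (∀ P Q, hdist (g P) (g Q) = hdist P Q) ∧ g '' C = C

/-- A configuration is group-balanced if for each of its points `P` it has a symmetry whose set of
fixed points is `{P}`. -/
def GroupBalanced {n : ℕ} (C : Set (Hyp n)) : Prop :=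
  ∀ P ∈ C, ∃ g : Hyp n ≃ Hyp n, IsSymmetry C g ∧ {Q | g Q = Q} = {P}

/-! ### The hyperbolic plane -/

lemma lor_two (x y : Fin 3 → ℝ) : lor (n := 2) x y = x 0 * y 0 - x 1 * y 1 - x 2 * y 2 := by
  simp only [lor, Fin.sum_univ_two]
  have h1 : (0 : Fin 2).succ = (1 : Fin 3) := rfl
  have h2 : (1 : Fin 2).succ = (2 : Fin 3) := rfl
  rw [h1, h2]; ring

lemma norm_eq (P : Hyp 2) : P.1 0 * P.1 0 - P.1 1 * P.1 1 - P.1 2 * P.1 2 = 1 := by
  have := P.2.1
  rwa [lor_two] at this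

lemma pos0 (P : Hyp 2) : 0 < P.1 0 := P.2.2

lemma one_le0 (P : Hyp 2) : 1 ≤ P.1 0 := by
  have h1 := norm_eq P
  have h2 := pos0 P
  nlinarith [mul_self_nonneg (P.1 1), mul_self_nonneg (P.1 2)]

lemma cs (a b c d : ℝ) : (a * c + b * d) ^ 2 ≤ (a * a + b * b) * (c * c + d * d) := by
  nlinarith [sq_nonneg (a * d - b * c)]

lemma one_le_lor (P Q : Hyp 2) : 1 ≤ lor (n := 2) P.1 Q.1 := by
  rw [lor_two]
  have h1 := norm_eq P
  have h2 := norm_eq Q
  have h3 := one_le0 P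
  have h4 := one_le0 Q
  have h5 := cs (P.1 1) (P.1 2) (Q.1 1) (Q.1 2)
  set p0 := P.1 0
  set p1 := P.1 1
  set p2 := P.1 2
  set q0 := Q.1 0
  set q1 := Q.1 1
  set q2 := Q.1 2
  by_contra hcon
  push Not at hcon
  have h6 : p1 * p1 + p2 * p2 = p0 * p0 - 1 := by linarith
  have h7 : q1 * q1 + q2 * q2 = q0 * q0 - 1 := by linarith
  rw [h6, h7] at h5
  have h8 : p0 * q0 - 1 < p1 * q1 + p2 * q2 := by linarith
  have h9 : 0 ≤ p0 * q0 - 1 := by nlinarith
  nlinarith [sq_nonneg (p0 - q0)]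

lemma cosh_hdist (P Q : Hyp 2) : Real.cosh (hdist P Q) = lor (n := 2) P.1 Q.1 :=
  Real.cosh_arcosh (one_le_lor P Q)

lemma lor_of_hdist {P Q P' Q' : Hyp 2} (h : hdist P Q = hdist P' Q') :
    lor (n := 2) P.1 Q.1 = lor (n := 2) P'.1 Q'.1 := by
  rw [← cosh_hdist, ← cosh_hdist, h]

lemma hdist_of_lor {P Q P' Q' : Hyp 2} (h : lor (n := 2) P.1 Q.1 = lor (n := 2) P'.1 Q'.1) :
    hdist P Q = hdist P' Q' := by
  unfold hdist; rw [h]

lemma pos_of_lor (P : Hyp 2) (x : Fin 3 → ℝ) (hx : lor (n := 2) x x = 1)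
    (h : 0 < lor (n := 2) P.1 x) : 0 < x 0 := by
  rw [lor_two] at hx h
  have h1 := norm_eq P
  have h3 := one_le0 P
  have h5 := cs (P.1 1) (P.1 2) (x 1) (x 2)
  set p0 := P.1 0
  set p1 := P.1 1
  set p2 := P.1 2
  set q0 := x 0
  set q1 := x 1
  set q2 := x 2
  by_contra hcon
  push Not at hcon
  have h6 : p1 * p1 + p2 * p2 = p0 * p0 - 1 := by linarith
  have h7 : q1 * q1 + q2 * q2 = q0 * q0 - 1 := by linarith
  rw [h6, h7] at h5
  have h8 : p1 * q1 + p2 * q2 < p0 * q0 := by linarith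
  have h9 : p0 * q0 ≤ 0 := by nlinarith
  have h10 : (p0 * q0) ^ 2 < (p1 * q1 + p2 * q2) ^ 2 := by nlinarith
  have h11 : 0 ≤ q1 * q1 + q2 * q2 := by nlinarith [mul_self_nonneg q1, mul_self_nonneg q2]
  nlinarith

lemma coord0_le (P Q : Hyp 2) : Q.1 0 ≤ 2 * P.1 0 * lor (n := 2) P.1 Q.1 := by
  rw [lor_two]
  have h1 := norm_eq P
  have h2 := norm_eq Q
  have h3 := one_le0 P
  have h4 := one_le0 Q
  have h5 := cs (P.1 1) (P.1 2) (Q.1 1) (Q.1 2)
  set p0 := P.1 0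
  set p1 := P.1 1
  set p2 := P.1 2
  set q0 := Q.1 0
  set q1 := Q.1 1
  set q2 := Q.1 2
  have h6 : p1 * p1 + p2 * p2 = p0 * p0 - 1 := by linarith
  have h7 : q1 * q1 + q2 * q2 = q0 * q0 - 1 := by linarith
  rw [h6, h7] at h5
  set S := p1 * q1 + p2 * q2 with hS
  have h8 : S ^ 2 ≤ (p0 * p0 - 1) * (q0 * q0) := by nlinarith
  have h9 : 2 * p0 * S ≤ q0 * (2 * (p0 * p0) - 1) := by
    have h10 : 0 ≤ q0 * (2 * (p0 * p0) - 1) := by
      apply mul_nonneg (by linarith); nlinarith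
    have h11 : (2 * p0 * S) ^ 2 ≤ (q0 * (2 * (p0 * p0) - 1)) ^ 2 := by
      have e1 : (2 * p0 * S) ^ 2 = 4 * (p0 * p0) * S ^ 2 := by ring
      have e2 : (q0 * (2 * (p0 * p0) - 1)) ^ 2 =
          4 * (p0 * p0) * ((p0 * p0 - 1) * (q0 * q0)) + q0 * q0 := by ring
      rw [e1, e2]
      have : 4 * (p0 * p0) * S ^ 2 ≤ 4 * (p0 * p0) * ((p0 * p0 - 1) * (q0 * q0)) :=
        mul_le_mul_of_nonneg_left h8 (by positivity)
      nlinarith [mul_self_nonneg q0]
    exact (le_abs_self _).trans (abs_le_of_sq_le_sq h11 h10)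
  nlinarith

/-! ### The lattice points -/

/-- The point of `ℝ³` with integer parameters `t, a, b`. -/
noncomputable def vec (t a b : ℤ) : Fin 3 → ℝ :=
  ![(t : ℝ), √2 * (2 * a - b), √6 * b]

lemma vec0 (t a b : ℤ) : vec t a b 0 = t := rfl
lemma vec1 (t a b : ℤ) : vec t a b 1 = √2 * (2 * a - b) := rfl
lemma vec2 (t a b : ℤ) : vec t a b 2 = √6 * b := rfl

lemma s22 : √2 * √2 = (2 : ℝ) := Real.mul_self_sqrt (by norm_num)
lemma s33 : √3 * √3 = (3 : ℝ) := Real.mul_self_sqrt (by norm_num)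
lemma s66 : √6 * √6 = (6 : ℝ) := Real.mul_self_sqrt (by norm_num)
lemma s6 : √6 = √2 * √3 := by
  rw [← Real.sqrt_mul (by norm_num)]; norm_num

lemma lor_vec (t a b t' a' b' : ℤ) : lor (n := 2) (vec t a b) (vec t' a' b') =
    ((t * t' - 8 * a * a' + 4 * a * b' + 4 * a' * b - 8 * b * b' : ℤ) : ℝ) := by
  rw [lor_two]
  simp only [vec0, vec1, vec2]
  push_cast
  linear_combination (-(2 * (a : ℝ) - b) * (2 * a' - b')) * s22 - (b : ℝ) * b' * s66

lemma vec_inj {t a b t' a' b' : ℤ} (h : vec t a b = vec t' a' b') :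
    t = t' ∧ a = a' ∧ b = b' := by
  have h0 := congrFun h 0
  have h1 := congrFun h 1
  have h2 := congrFun h 2
  simp only [vec0, vec1, vec2] at h0 h1 h2
  have e0 : t = t' := by exact_mod_cast h0
  have e2 : (b : ℝ) = b' := mul_left_cancel₀ (by positivity) h2
  have e1 : 2 * (a : ℝ) - b = 2 * a' - b' := mul_left_cancel₀ (by positivity) h1
  have e2' : b = b' := by exact_mod_cast e2
  have e1' : 2 * a - b = 2 * a' - b' := by exact_mod_cast e1
  exact ⟨e0, by omega, e2'⟩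

/-- Points of the first kind. -/
def KindA (Q : Hyp 2) : Prop := ∃ t a b : ℤ, Q.1 = vec t a b ∧ t % 4 = 1 ∧ b % 2 = 0

/-- Points of the second kind. -/
def KindB (Q : Hyp 2) : Prop := ∃ t a b : ℤ, Q.1 = vec t a b ∧ t % 4 = 3 ∧ (a + b) % 3 = 1

/-- The configuration. -/
def Conf : Set (Hyp 2) := {Q | KindA Q ∨ KindB Q}

lemma Conf.exists {Q : Hyp 2} (h : Q ∈ Conf) : ∃ t a b : ℤ, Q.1 = vec t a b ∧ t % 2 = 1 := by
  rcases h with ⟨t, a, b, h1, h2, -⟩ | ⟨t, a, b, h1, h2, -⟩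
  · exact ⟨t, a, b, h1, by omega⟩
  · exact ⟨t, a, b, h1, by omega⟩

lemma norm_vec {Q : Hyp 2} {t a b : ℤ} (h : Q.1 = vec t a b) :
    t * t - 8 * (a * a - a * b + b * b) = 1 := by
  have h1 := Q.2.1
  rw [h, lor_vec] at h1
  have h2 : t * t - 8 * a * a + 4 * a * b + 4 * a * b - 8 * b * b = 1 := by exact_mod_cast h1
  linarith

lemma disjoint_kinds {Q : Hyp 2} (hA : KindA Q) (hB : KindB Q) : False := by
  obtain ⟨t, a, b, h1, h2, -⟩ := hA
  obtain ⟨t', a', b', h1', h2', -⟩ := hB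
  rw [h1] at h1'
  have := (vec_inj h1').1
  omega

/-! ### The half-turn -/

/-- The half-turn about `P`. -/
noncomputable def half (P Q : Hyp 2) : Hyp 2 :=
  ⟨(2 * lor (n := 2) P.1 Q.1) • P.1 - Q.1, by
    have h1 : lor (n := 2) ((2 * lor (n := 2) P.1 Q.1) • P.1 - Q.1)
        ((2 * lor (n := 2) P.1 Q.1) • P.1 - Q.1) = 1 := by
      have h1 := norm_eq P
      have h2 := norm_eq Q
      simp only [lor_two, Pi.sub_apply, Pi.smul_apply, smul_eq_mul]
      linear_combination (4 * (P.1 0 * Q.1 0 - P.1 1 * Q.1 1 - P.1 2 * Q.1 2) ^ 2) * h1 + h2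
    refine ⟨h1, pos_of_lor P _ h1 ?_⟩
    have h2 := norm_eq P
    have h3 := one_le_lor P Q
    have h4 : lor (n := 2) P.1 ((2 * lor (n := 2) P.1 Q.1) • P.1 - Q.1) =
        lor (n := 2) P.1 Q.1 := by
      simp only [lor_two, Pi.sub_apply, Pi.smul_apply, smul_eq_mul]
      linear_combination (2 * (P.1 0 * Q.1 0 - P.1 1 * Q.1 1 - P.1 2 * Q.1 2)) * h2
    rw [h4]; linarith⟩

lemma half_val (P Q : Hyp 2) : (half P Q).1 = (2 * lor (n := 2) P.1 Q.1) • P.1 - Q.1 := rfl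

lemma lor_half (P Q : Hyp 2) : lor (n := 2) P.1 (half P Q).1 = lor (n := 2) P.1 Q.1 := by
  have h2 := norm_eq P
  rw [half_val]
  simp only [lor_two, Pi.sub_apply, Pi.smul_apply, smul_eq_mul]
  linear_combination (2 * (P.1 0 * Q.1 0 - P.1 1 * Q.1 1 - P.1 2 * Q.1 2)) * h2

lemma hdist_half (P Q : Hyp 2) : hdist P (half P Q) = hdist P Q := hdist_of_lor (lor_half P Q)

lemma half_half (P Q : Hyp 2) : half P (half P Q) = Q := by
  apply Subtype.ext
  rw [half_val, lor_half, half_val]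
  abel

lemma dir_half (P Q : Hyp 2) : dir P Q + dir P (half P Q) = 0 := by
  unfold dir
  rw [hdist_half, ← smul_add, cosh_hdist, half_val]
  have : Q.1 - lor (n := 2) P.1 Q.1 • P.1 +
      ((2 * lor (n := 2) P.1 Q.1) • P.1 - Q.1 - lor (n := 2) P.1 Q.1 • P.1) = 0 := by
    rw [mul_smul, two_smul]; abel
  rw [this, smul_zero]

lemma half_kindA {P Q : Hyp 2} (hP : P ∈ Conf) (hQ : KindA Q) : KindA (half P Q) := by
  obtain ⟨t', a', b', hP1, hP2⟩ := Conf.exists hP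
  obtain ⟨t, a, b, hQ1, hQ2, hQ3⟩ := hQ
  set c : ℤ := t' * t - 8 * a' * a + 4 * a' * b + 4 * a * b' - 8 * b' * b with hc
  refine ⟨2 * c * t' - t, 2 * c * a' - a, 2 * c * b' - b, ?_, ?_, ?_⟩
  · rw [half_val, hP1, hQ1, lor_vec, ← hc]
    ext i
    fin_cases i
    · simp only [Pi.sub_apply, Pi.smul_apply, smul_eq_mul, Fin.zero_eta, vec0]
      push_cast; ring
    · simp only [Pi.sub_apply, Pi.smul_apply, smul_eq_mul, Fin.mk_one, vec1]
      push_cast; ring
    · simp only [Pi.sub_apply, Pi.smul_apply, smul_eq_mul, Fin.reduceFinMk, vec2]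
      push_cast; ring
  · obtain ⟨m', hm'⟩ : ∃ m', t' = 2 * m' + 1 := ⟨t' / 2, by omega⟩
    obtain ⟨m, hm⟩ : ∃ m, t = 2 * m + 1 := ⟨t / 2, by omega⟩
    have h1 : 2 * c * t' = 4 * (m * t' * t' + m' + m' * t' + (- 4 * a' * a + 2 * a' * b +
        2 * a * b' - 4 * b' * b) * t') + 2 := by
      rw [hc, hm, hm']; ring
    omega
  · have h1 : 2 * c * b' - b = 2 * (c * b') - b := by ring
    rw [h1]; omega

/-! ### The rotations through 120 degrees -/

/-- The vector obtained from `x` by the rotation through `±120` degrees about `P`, where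
`s = ±√3`. -/
noncomputable def rotVec (s : ℝ) (p x : Fin 3 → ℝ) : Fin 3 → ℝ :=
  ![(3 * lor (n := 2) p x * p 0 - x 0) / 2 + s / 2 * (p 2 * x 1 - p 1 * x 2),
    (3 * lor (n := 2) p x * p 1 - x 1) / 2 + s / 2 * (p 2 * x 0 - p 0 * x 2),
    (3 * lor (n := 2) p x * p 2 - x 2) / 2 + s / 2 * (p 0 * x 1 - p 1 * x 0)]

lemma rotVec0 (s : ℝ) (p x : Fin 3 → ℝ) : rotVec s p x 0 =
    (3 * lor (n := 2) p x * p 0 - x 0) / 2 + s / 2 * (p 2 * x 1 - p 1 * x 2) := rfl
lemma rotVec1 (s : ℝ) (p x : Fin 3 → ℝ) : rotVec s p x 1 =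
    (3 * lor (n := 2) p x * p 1 - x 1) / 2 + s / 2 * (p 2 * x 0 - p 0 * x 2) := rfl
lemma rotVec2 (s : ℝ) (p x : Fin 3 → ℝ) : rotVec s p x 2 =
    (3 * lor (n := 2) p x * p 2 - x 2) / 2 + s / 2 * (p 0 * x 1 - p 1 * x 0) := rfl

lemma lor_rotVec {s : ℝ} {p x : Fin 3 → ℝ} (hp : p 0 * p 0 - p 1 * p 1 - p 2 * p 2 = 1) :
    lor (n := 2) p (rotVec s p x) = lor (n := 2) p x := by
  rw [lor_two p (rotVec s p x), rotVec0, rotVec1, rotVec2]
  rw [lor_two p x]
  linear_combination (3 / 2 * (p 0 * x 0 - p 1 * x 1 - p 2 * x 2)) * hp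

lemma rotVec_norm {s : ℝ} (hs : s * s = 3) {p x : Fin 3 → ℝ}
    (hp : p 0 * p 0 - p 1 * p 1 - p 2 * p 2 = 1) :
    lor (n := 2) (rotVec s p x) (rotVec s p x) = lor (n := 2) x x := by
  rw [lor_two (rotVec s p x) (rotVec s p x), rotVec0, rotVec1, rotVec2]
  rw [lor_two p x, lor_two x x]
  linear_combination (9 / 4 * (p 0 * x 0 - p 1 * x 1 - p 2 * x 2) ^ 2 +
    3 / 4 * (x 0 * x 0 - x 1 * x 1 - x 2 * x 2)) * hp +
    (1 / 4 * ((p 0 * p 0 - p 1 * p 1 - p 2 * p 2) * (x 0 * x 0 - x 1 * x 1 - x 2 * x 2) -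
      (p 0 * x 0 - p 1 * x 1 - p 2 * x 2) ^ 2)) * hs

lemma rotVec_rotVec {s : ℝ} (hs : s * s = 3) {p x : Fin 3 → ℝ}
    (hp : p 0 * p 0 - p 1 * p 1 - p 2 * p 2 = 1) :
    rotVec (-s) p (rotVec s p x) = x := by
  have h := lor_rotVec (s := s) (x := x) hp
  ext i
  fin_cases i
  · change rotVec (-s) p (rotVec s p x) 0 = x 0
    rw [rotVec0 (-s), h, rotVec0, rotVec1, rotVec2, lor_two]
    linear_combination (1 / 4 * ((p 0 * p 0 - p 1 * p 1 - p 2 * p 2) * x 0 -
      (p 0 * x 0 - p 1 * x 1 - p 2 * x 2) * p 0)) * hs + (3 / 4 * x 0) * hp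
  · change rotVec (-s) p (rotVec s p x) 1 = x 1
    rw [rotVec1 (-s), h, rotVec0, rotVec1, rotVec2, lor_two]
    linear_combination (1 / 4 * ((p 0 * p 0 - p 1 * p 1 - p 2 * p 2) * x 1 -
      (p 0 * x 0 - p 1 * x 1 - p 2 * x 2) * p 1)) * hs + (3 / 4 * x 1) * hp
  · change rotVec (-s) p (rotVec s p x) 2 = x 2
    rw [rotVec2 (-s), h, rotVec0, rotVec1, rotVec2, lor_two]
    linear_combination (1 / 4 * ((p 0 * p 0 - p 1 * p 1 - p 2 * p 2) * x 2 -
      (p 0 * x 0 - p 1 * x 1 - p 2 * x 2) * p 2)) * hs + (3 / 4 * x 2) * hp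

/-- The rotation through `±120` degrees about `P`. -/
noncomputable def rot (s : ℝ) (hs : s * s = 3) (P Q : Hyp 2) : Hyp 2 :=
  ⟨rotVec s P.1 Q.1, by
    have h1 : lor (n := 2) (rotVec s P.1 Q.1) (rotVec s P.1 Q.1) = 1 := by
      rw [rotVec_norm hs (norm_eq P)]; exact Q.2.1
    refine ⟨h1, pos_of_lor P _ h1 ?_⟩
    rw [lor_rotVec (norm_eq P)]
    linarith [one_le_lor P Q]⟩

lemma rot_val (s : ℝ) (hs : s * s = 3) (P Q : Hyp 2) : (rot s hs P Q).1 = rotVec s P.1 Q.1 := rfl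

lemma hdist_rot (s : ℝ) (hs : s * s = 3) (P Q : Hyp 2) : hdist P (rot s hs P Q) = hdist P Q :=
  hdist_of_lor (by rw [rot_val]; exact lor_rotVec (norm_eq P))

lemma neg_mul_self {s : ℝ} (hs : s * s = 3) : (-s) * (-s) = 3 := by linarith [neg_mul_neg s s]

lemma rot_rot (s : ℝ) (hs : s * s = 3) (P Q : Hyp 2) :
    rot (-s) (neg_mul_self hs) P (rot s hs P Q) = Q :=
  Subtype.ext (rotVec_rotVec hs (norm_eq P))

lemma rot_rot' (s : ℝ) (hs : s * s = 3) (P Q : Hyp 2) :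
    rot s hs P (rot (-s) (neg_mul_self hs) P Q) = Q := by
  have h := rot_rot (-s) (neg_mul_self hs) P Q
  simpa only [neg_neg] using h

lemma dir_rot (s : ℝ) (hs : s * s = 3) (P Q : Hyp 2) :
    dir P Q + dir P (rot s hs P Q) + dir P (rot (-s) (neg_mul_self hs) P Q) = 0 := by
  unfold dir
  rw [hdist_rot, hdist_rot, ← smul_add, ← smul_add, cosh_hdist, rot_val, rot_val]
  have : Q.1 - lor (n := 2) P.1 Q.1 • P.1 +
      (rotVec s P.1 Q.1 - lor (n := 2) P.1 Q.1 • P.1) +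
      (rotVec (-s) P.1 Q.1 - lor (n := 2) P.1 Q.1 • P.1) = 0 := by
    ext i
    fin_cases i
    · simp only [Pi.add_apply, Pi.sub_apply, Pi.smul_apply, smul_eq_mul, Fin.zero_eta, rotVec0,
        Pi.zero_apply]
      ring
    · simp only [Pi.add_apply, Pi.sub_apply, Pi.smul_apply, smul_eq_mul, Fin.mk_one, rotVec1,
        Pi.zero_apply]
      ring
    · simp only [Pi.add_apply, Pi.sub_apply, Pi.smul_apply, smul_eq_mul, Fin.reduceFinMk, rotVec2,
        Pi.zero_apply]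
      ring
  rw [this, smul_zero]

lemma rotVec_vec (ε t' a' b' t a b t'' a'' b'' c : ℤ)
    (hc : c = t' * t - 8 * a' * a + 4 * a' * b + 4 * a * b' - 8 * b' * b)
    (h0 : 2 * t'' = 3 * c * t' - t - 12 * ε * (a' * b - a * b'))
    (h1 : 2 * a'' = 3 * c * a' - a + ε * ((t' * a - t * a') - 2 * (t' * b - t * b')))
    (h2 : 2 * b'' = 3 * c * b' - b + ε * (2 * (t' * a - t * a') - (t' * b - t * b'))) :
    rotVec (ε * √3) (vec t' a' b') (vec t a b) = vec t'' a'' b'' := by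
  have h0' : 2 * (t'' : ℝ) = 3 * c * t' - t - 12 * ε * (a' * b - a * b') := by exact_mod_cast h0
  have h1' : 2 * (a'' : ℝ) = 3 * c * a' - a + ε * ((t' * a - t * a') - 2 * (t' * b - t * b')) := by
    exact_mod_cast h1
  have h2' : 2 * (b'' : ℝ) = 3 * c * b' - b + ε * (2 * (t' * a - t * a') - (t' * b - t * b')) := by
    exact_mod_cast h2
  have hs2 := s22
  have hs3 := s33
  have hL : lor (n := 2) (vec t' a' b') (vec t a b) = (c : ℝ) := by rw [lor_vec, ← hc]
  ext i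
  fin_cases i
  · change rotVec (ε * √3) (vec t' a' b') (vec t a b) 0 = vec t'' a'' b'' 0
    rw [rotVec0, hL]
    simp only [vec0, vec1, vec2, s6]
    linear_combination (-1 / 2 : ℝ) * h0' +
      (ε * (a * b' - a' * b) * √3 * √3 : ℝ) * hs2 + (2 * ε * (a * b' - a' * b) : ℝ) * hs3
  · change rotVec (ε * √3) (vec t' a' b') (vec t a b) 1 = vec t'' a'' b'' 1
    rw [rotVec1, hL]
    simp only [vec0, vec1, vec2, s6]
    linear_combination (-√2) * h1' + (√2 / 2) * h2' + (ε * √2 / 2 * (b' * t - t' * b)) * hs3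
  · change rotVec (ε * √3) (vec t' a' b') (vec t a b) 2 = vec t'' a'' b'' 2
    rw [rotVec2, hL]
    simp only [vec0, vec1, vec2, s6]
    linear_combination (-√2 * √3 / 2) * h2'

lemma rot_kindB {ε : ℤ} (hε : ε = 1 ∨ ε = -1) (hs : (ε * √3 : ℝ) * (ε * √3) = 3) {P Q : Hyp 2}
    (hP : P ∈ Conf) (hQ : KindB Q) : KindB (rot (ε * √3) hs P Q) := by
  obtain ⟨t', a', b', hP1, hP2⟩ := Conf.exists hP
  obtain ⟨t, a, b, hQ1, hQ2, hQ3⟩ := hQ
  have hPn := norm_vec hP1
  obtain ⟨m', hm'⟩ : ∃ m', t' = 2 * m' + 1 := ⟨t' / 2, by omega⟩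
  obtain ⟨m, hm⟩ : ∃ m, t = 2 * m + 1 := ⟨t / 2, by omega⟩
  set c : ℤ := t' * t - 8 * a' * a + 4 * a' * b + 4 * a * b' - 8 * b' * b with hc
  obtain ⟨n, hn⟩ : ∃ n, c = 2 * n + 1 := ⟨2 * m' * m + m' + m - 4 * a' * a + 2 * a' * b +
    2 * a * b' - 4 * b' * b, by rw [hc, hm, hm']; ring⟩
  -- the image
  obtain ⟨t'', h0⟩ : ∃ t'', 2 * t'' = 3 * c * t' - t - 12 * ε * (a' * b - a * b') :=
    ⟨6 * n * m' + 3 * n + 3 * m' + 1 - m - 6 * ε * (a' * b - a * b'), by
      rw [hn, hm, hm']; ring⟩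
  obtain ⟨a'', h1⟩ : ∃ a'', 2 * a'' =
      3 * c * a' - a + ε * ((t' * a - t * a') - 2 * (t' * b - t * b')) := by
    rcases hε with rfl | rfl
    · exact ⟨3 * n * a' + a' + m' * a - m * a' - (t' * b - t * b'), by rw [hn, hm, hm']; ring⟩
    · exact ⟨3 * n * a' + 2 * a' - a - m' * a + m * a' + (t' * b - t * b'), by
        rw [hn, hm, hm']; ring⟩
  obtain ⟨b'', h2⟩ : ∃ b'', 2 * b'' =
      3 * c * b' - b + ε * (2 * (t' * a - t * a') - (t' * b - t * b')) := by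
    rcases hε with rfl | rfl
    · exact ⟨3 * n * b' + 2 * b' - b + (t' * a - t * a') - m' * b + m * b', by
        rw [hn, hm, hm']; ring⟩
    · exact ⟨3 * n * b' + b' - (t' * a - t * a') + m' * b - m * b', by
        rw [hn, hm, hm']; ring⟩
  refine ⟨t'', a'', b'', ?_, ?_, ?_⟩
  · rw [rot_val, hP1, hQ1]
    exact rotVec_vec ε t' a' b' t a b t'' a'' b'' c hc h0 h1 h2
  · -- congruence modulo 4
    have h3 : t'' = t + 4 * (3 * t * (a' * a' - a' * b' + b' * b') -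
        3 * t' * (a' * a + b' * b)) + 6 * (t' * (a * b' + a' * b) - ε * (a' * b - a * b')) := by
      have h4 : 2 * t'' = 2 * (t + 4 * (3 * t * (a' * a' - a' * b' + b' * b') -
          3 * t' * (a' * a + b' * b)) + 6 * (t' * (a * b' + a' * b) - ε * (a' * b - a * b'))) := by
        rw [h0, hc]
        linear_combination (3 * t) * hPn
      linarith
    have h5 : ∃ K, t' * (a * b' + a' * b) - ε * (a' * b - a * b') = 2 * K := by
      rcases hε with rfl | rfl
      · exact ⟨m' * (a * b' + a' * b) + a * b', by rw [hm']; ring⟩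
      · exact ⟨m' * (a * b' + a' * b) + a' * b, by rw [hm']; ring⟩
    obtain ⟨K, hK⟩ := h5
    rw [hK] at h3
    omega
  · have h3 : 2 * (a'' + b'') = 3 * (c * a' + c * b' + ε * ((t' * a - t * a') -
        (t' * b - t * b'))) - (a + b) := by
      linear_combination h1 + h2
    omega

/-! ### Discreteness -/

lemma discrete_conf : Discrete Conf := by
  intro P R
  set K : ℝ := 2 * P.1 0 * Real.cosh (max R 0) with hK
  obtain ⟨M, hM⟩ := exists_nat_ge K
  have hfin : ((fun z : ℤ × ℤ × ℤ => vec z.1 z.2.1 z.2.2) ''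
      ((Set.Icc (0 : ℤ) M) ×ˢ ((Set.Icc (-(M : ℤ)) M) ×ˢ (Set.Icc (-(M : ℤ)) M)))).Finite :=
    Set.Finite.image _ ((Set.finite_Icc _ _).prod ((Set.finite_Icc _ _).prod (Set.finite_Icc _ _)))
  refine Set.Finite.of_finite_image (f := Subtype.val) (hfin.subset ?_)
    (Subtype.val_injective.injOn)
  rintro _ ⟨Q, ⟨hQC, hQR⟩, rfl⟩
  obtain ⟨t, a, b, hQ, -⟩ := Conf.exists hQC
  have h1 : lor (n := 2) P.1 Q.1 ≤ Real.cosh (max R 0) := by
    rw [← cosh_hdist]
    apply Real.cosh_le_cosh.2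
    have h2 : 0 ≤ hdist P Q := Real.arcosh_nonneg (one_le_lor P Q)
    rw [abs_of_nonneg h2, abs_of_nonneg (le_max_right _ _)]
    exact hQR.trans (le_max_left _ _)
  have h2 := coord0_le P Q
  have h3 := one_le0 P
  have h4 : Q.1 0 ≤ K := h2.trans (by
    rw [hK]
    exact mul_le_mul_of_nonneg_left h1 (by linarith))
  have h5 : (t : ℝ) ≤ M := by
    have : Q.1 0 = (t : ℝ) := by rw [hQ]; rfl
    rw [← this]; linarith
  have h6 : t ≤ M := by exact_mod_cast h5
  have h7 : 0 < t := by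
    have h8 := pos0 Q
    rw [hQ, vec0] at h8
    exact_mod_cast h8
  have h8 := norm_vec hQ
  have h9 : 8 * (a * a - a * b + b * b) ≤ M * M := by nlinarith
  have h10 : 0 ≤ (M : ℤ) := by positivity
  refine ⟨(t, a, b), ⟨⟨h7.le, h6⟩, ⟨?_, ?_⟩, ⟨?_, ?_⟩⟩, hQ.symm⟩
  · nlinarith [sq_nonneg (2 * b - a), sq_nonneg (a + M)]
  · nlinarith [sq_nonneg (2 * b - a), sq_nonneg (a - M)]
  · nlinarith [sq_nonneg (2 * a - b), sq_nonneg (b + M)]
  · nlinarith [sq_nonneg (2 * a - b), sq_nonneg (b - M)]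

/-! ### Balance -/

lemma finite_sphere (P : Hyp 2) (d : ℝ) : {Q | Q ∈ Conf ∧ hdist P Q = d}.Finite :=
  (discrete_conf P d).subset fun _ h => ⟨h.1, h.2.le⟩

lemma sum_kindA {P : Hyp 2} (hP : P ∈ Conf) (d : ℝ) :
    ∑ᶠ Q ∈ {Q | KindA Q ∧ hdist P Q = d}, dir P Q = 0 := by
  have hfin : {Q | KindA Q ∧ hdist P Q = d}.Finite :=
    (finite_sphere P d).subset fun _ h => ⟨Or.inl h.1, h.2⟩
  rw [finsum_mem_eq_finite_toFinset_sum _ hfin]
  refine Finset.sum_involution (fun Q _ => half P Q) ?_ ?_ ?_ ?_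
  · intro Q _; exact dir_half P Q
  · intro Q _ h1 h2
    apply h1
    have h3 := dir_half P Q
    rw [h2] at h3
    have h4 : (2 : ℝ) • dir P Q = 0 := by rw [two_smul]; exact h3
    exact (smul_eq_zero.1 h4).resolve_left (by norm_num)
  · intro Q hQ
    rw [Set.Finite.mem_toFinset] at hQ ⊢
    exact ⟨half_kindA hP hQ.1, by rw [hdist_half]; exact hQ.2⟩
  · intro Q _; exact half_half P Q

lemma sum_kindB {P : Hyp 2} (hP : P ∈ Conf) (d : ℝ) :
    ∑ᶠ Q ∈ {Q | KindB Q ∧ hdist P Q = d}, dir P Q = 0 := by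
  have hfin : {Q | KindB Q ∧ hdist P Q = d}.Finite :=
    (finite_sphere P d).subset fun _ h => ⟨Or.inr h.1, h.2⟩
  rw [finsum_mem_eq_finite_toFinset_sum _ hfin]
  set S := hfin.toFinset with hS
  have hs : √3 * √3 = (3 : ℝ) := s33
  have hmem : ∀ Q ∈ S, rot (√3) hs P Q ∈ S := by
    intro Q hQ
    rw [hS, Set.Finite.mem_toFinset] at hQ ⊢
    refine ⟨?_, by rw [hdist_rot]; exact hQ.2⟩
    have h1 := rot_kindB (ε := 1) (Or.inl rfl) (by push_cast; rw [one_mul]; exact hs) hP hQ.1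
    have h2 : ((1 : ℤ) : ℝ) * √3 = √3 := by push_cast; ring
    simpa only [h2] using h1
  have hmem' : ∀ Q ∈ S, rot (-√3) (neg_mul_self hs) P Q ∈ S := by
    intro Q hQ
    rw [hS, Set.Finite.mem_toFinset] at hQ ⊢
    refine ⟨?_, by rw [hdist_rot]; exact hQ.2⟩
    have h1 := rot_kindB (ε := -1) (Or.inr rfl) (by push_cast; linarith [hs]) hP hQ.1
    have h2 : ((-1 : ℤ) : ℝ) * √3 = -√3 := by push_cast; ring
    simpa only [h2] using h1
  have h1 : ∑ Q ∈ S, dir P (rot (√3) hs P Q) = ∑ Q ∈ S, dir P Q :=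
    Finset.sum_nbij' (fun Q => rot (√3) hs P Q) (fun Q => rot (-√3) (neg_mul_self hs) P Q)
      hmem hmem' (fun Q _ => rot_rot _ hs P Q) (fun Q _ => rot_rot' _ hs P Q) (fun Q _ => rfl)
  have h2 : ∑ Q ∈ S, dir P (rot (-√3) (neg_mul_self hs) P Q) = ∑ Q ∈ S, dir P Q :=
    Finset.sum_nbij' (fun Q => rot (-√3) (neg_mul_self hs) P Q) (fun Q => rot (√3) hs P Q)
      hmem' hmem (fun Q _ => rot_rot' _ hs P Q) (fun Q _ => rot_rot _ hs P Q) (fun Q _ => rfl)
  have h3 : ∑ Q ∈ S, (dir P Q + dir P (rot (√3) hs P Q) +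
      dir P (rot (-√3) (neg_mul_self hs) P Q)) = 0 :=
    Finset.sum_eq_zero fun Q _ => dir_rot _ hs P Q
  rw [Finset.sum_add_distrib, Finset.sum_add_distrib, h1, h2] at h3
  have h4 : (3 : ℝ) • ∑ Q ∈ S, dir P Q = 0 := by
    rw [← h3]; module
  exact (smul_eq_zero.1 h4).resolve_left (by norm_num)

lemma balanced_conf : Balanced Conf := by
  intro P hP d _
  have h1 : {Q | Q ∈ Conf ∧ hdist P Q = d} =
      {Q | KindA Q ∧ hdist P Q = d} ∪ {Q | KindB Q ∧ hdist P Q = d} := by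
    ext Q
    constructor
    · rintro ⟨h1 | h1, h2⟩
      · exact Or.inl ⟨h1, h2⟩
      · exact Or.inr ⟨h1, h2⟩
    · rintro (⟨h1, h2⟩ | ⟨h1, h2⟩)
      · exact ⟨Or.inl h1, h2⟩
      · exact ⟨Or.inr h1, h2⟩
  have hfin := finite_sphere P d
  rw [h1] at hfin ⊢
  rw [finsum_mem_union (Set.disjoint_left.2 fun Q hA hB => disjoint_kinds hA.1 hB.1)
    (hfin.subset Set.subset_union_left) (hfin.subset Set.subset_union_right),
    sum_kindA hP, sum_kindB hP, add_zero]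

/-! ### The symmetries at the point `(1, 0, 0)` -/

/-- The point with given integer parameters. -/
noncomputable def pt (t a b : ℤ) (h : t * t - 8 * (a * a - a * b + b * b) = 1) (h0 : 0 < t) :
    Hyp 2 :=
  ⟨vec t a b, by
    constructor
    · rw [lor_vec]
      have : t * t - 8 * a * a + 4 * a * b + 4 * a * b - 8 * b * b = 1 := by linarith
      exact_mod_cast this
    · rw [vec0]; exact_mod_cast h0⟩

/-- The point `(1, 0, 0)`. -/
noncomputable def O : Hyp 2 := pt 1 0 0 (by norm_num) (by norm_num)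

lemma O_mem : O ∈ Conf := Or.inl ⟨1, 0, 0, rfl, by norm_num, by norm_num⟩

lemma lor_O {Q : Hyp 2} : lor (n := 2) O.1 Q.1 = Q.1 0 := by
  rw [lor_two]
  change vec 1 0 0 0 * Q.1 0 - vec 1 0 0 1 * Q.1 1 - vec 1 0 0 2 * Q.1 2 = Q.1 0
  rw [vec0, vec1, vec2]
  push_cast
  ring

/-- The points of the configuration with first coordinate 3. -/
lemma three {Q : Hyp 2} (hQ : Q ∈ Conf) (h : Q.1 0 = 3) :
    Q.1 = vec 3 1 0 ∨ Q.1 = vec 3 0 1 ∨ Q.1 = vec 3 (-1) (-1) := by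
  rcases hQ with ⟨t, a, b, hQ, h2, h3⟩ | ⟨t, a, b, hQ, h2, h3⟩
  · rw [hQ, vec0] at h
    have : t = 3 := by exact_mod_cast h
    omega
  · have hn := norm_vec hQ
    rw [hQ, vec0] at h
    have ht : t = 3 := by exact_mod_cast h
    subst ht
    have hn' : a * a - a * b + b * b = 1 := by linarith
    have ha1 : a ≤ 1 := by nlinarith [sq_nonneg (2 * b - a)]
    have ha2 : -1 ≤ a := by nlinarith [sq_nonneg (2 * b - a)]
    have hb1 : b ≤ 1 := by nlinarith [sq_nonneg (2 * a - b)]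
    have hb2 : -1 ≤ b := by nlinarith [sq_nonneg (2 * a - b)]
    rw [hQ]
    interval_cases a <;> interval_cases b <;> simp_all

/-- The points of the configuration with first coordinate 5. -/
lemma five {Q : Hyp 2} (hQ : Q ∈ Conf) (h : Q.1 0 = 5) :
    Q.1 = vec 5 1 2 ∨ Q.1 = vec 5 (-1) (-2) := by
  rcases hQ with ⟨t, a, b, hQ, h2, h3⟩ | ⟨t, a, b, hQ, h2, h3⟩
  · have hn := norm_vec hQ
    rw [hQ, vec0] at h
    have ht : t = 5 := by exact_mod_cast h
    subst ht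
    have hn' : a * a - a * b + b * b = 3 := by linarith
    have ha1 : a ≤ 2 := by nlinarith [sq_nonneg (2 * b - a)]
    have ha2 : -2 ≤ a := by nlinarith [sq_nonneg (2 * b - a)]
    have hb1 : b ≤ 2 := by nlinarith [sq_nonneg (2 * a - b)]
    have hb2 : -2 ≤ b := by nlinarith [sq_nonneg (2 * a - b)]
    rw [hQ]
    interval_cases a <;> interval_cases b <;> simp_all
  · rw [hQ, vec0] at h
    have : t = 5 := by exact_mod_cast h
    omega

lemma not_groupBalanced : ¬ GroupBalanced Conf := by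
  intro hcon
  obtain ⟨g, ⟨hiso, hgC⟩, hfix⟩ := hcon O O_mem
  have hgO : g O = O := by
    have : O ∈ {Q | g Q = Q} := by rw [hfix]; rfl
    exact this
  have huniq : ∀ Q, g Q = Q → Q = O := by
    intro Q hQ
    have : Q ∈ {Q | g Q = Q} := hQ
    rw [hfix] at this
    exact this
  have hmem : ∀ Q ∈ Conf, g Q ∈ Conf := by
    intro Q hQ
    rw [← hgC]
    exact ⟨Q, hQ, rfl⟩
  have hlor : ∀ P Q, lor (n := 2) (g P).1 (g Q).1 = lor (n := 2) P.1 Q.1 :=
    fun P Q => lor_of_hdist (hiso P Q)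
  have hg0 : ∀ Q, (g Q).1 0 = Q.1 0 := by
    intro Q
    have h1 := hlor O Q
    rw [hgO, lor_O, lor_O] at h1
    exact h1
  -- the points
  set q1 : Hyp 2 := pt 5 1 2 (by norm_num) (by norm_num) with hq1
  set r1 : Hyp 2 := pt 3 1 0 (by norm_num) (by norm_num) with hr1
  have hq1C : q1 ∈ Conf := Or.inl ⟨5, 1, 2, rfl, by norm_num, by norm_num⟩
  have hr1C : r1 ∈ Conf := Or.inr ⟨3, 1, 0, rfl, by norm_num, by norm_num⟩
  have hq10 : q1.1 0 = 5 := by change vec 5 1 2 0 = 5; rw [vec0]; norm_num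
  have hr10 : r1.1 0 = 3 := by change vec 3 1 0 0 = 3; rw [vec0]; norm_num
  have hO0 : O.1 0 = 1 := by change vec 1 0 0 0 = 1; rw [vec0]; norm_num
  have hgq := five (hmem q1 hq1C) (by rw [hg0]; exact hq10)
  have hgr := three (hmem r1 hr1C) (by rw [hg0]; exact hr10)
  have h15 : lor (n := 2) (g q1).1 (g r1).1 = 15 := by
    rw [hlor]
    change lor (n := 2) (vec 5 1 2) (vec 3 1 0) = 15
    rw [lor_vec]; norm_num
  rcases hgq with hgq | hgq
  · have : g q1 = q1 := Subtype.ext hgq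
    have := huniq q1 this
    rw [this] at hq10
    linarith
  · rw [hgq] at h15
    rcases hgr with hgr | hgr | hgr
    · have : g r1 = r1 := Subtype.ext hgr
      have := huniq r1 this
      rw [this] at hr10
      linarith
    · rw [hgr, lor_vec] at h15
      norm_num at h15
    · rw [hgr, lor_vec] at h15
      norm_num at h15

/-- There is a discrete configuration in the hyperbolic plane that is balanced but not
group-balanced. -/
theorem result : ∃ C : Set (Hyp 2), Discrete C ∧ Balanced C ∧ ¬ GroupBalanced C :=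
  ⟨Conf, discrete_conf, balanced_conf, not_groupBalanced⟩

end Pool.Agent.Results.MP_906af0_co.HyperbolicPlane
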